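import Pool.Agent.W744.GL.Stm
import Pool.Agent.Helper503.Gp.Char2
import Pool.Agent.Helper503.Gp.Cay

/-! Project GL, Schwarz and Pick. -/

set_option autoImplicit false

open Metric Set Filter Topology Complex
open scoped ComplexConjugate

namespace Pool.Agent.W376.GL.SP

open Pool.Agent.Helper503.Gp (HI IsChar Gl bfac cay PH BlaOn BF mu x28452_id x28452_ne cay_mem
  one_sub_bfac_cay)

/-- the involution of the disc which interchanges `0` and `b` -/
noncomputable def M (b x : ℂ) : ℂ := (b - x) / (1 - conj b * x)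

theorem M_sq {b x : ℂ} (hb : ‖b‖ < 1) (hx : ‖x‖ ≤ 1) :
    (1 - ‖M b x‖ ^ 2) * ‖1 - conj b * x‖ ^ 2 = (1 - ‖b‖ ^ 2) * (1 - ‖x‖ ^ 2) := by
  have h1 := x28452_ne hb hx
  have h2 : 0 < ‖1 - conj b * x‖ := norm_pos_iff.mpr h1
  have h3 : ‖M b x‖ ^ 2 * ‖1 - conj b * x‖ ^ 2 = ‖x - b‖ ^ 2 := by
    unfold M
    rw [norm_div, div_pow, div_mul_cancel₀ _ (by positivity), norm_sub_rev]
  have h4 := x28452_id x b
  rw [sub_mul, one_mul, h3, h4]
  ring

theorem M_le {b x : ℂ} (hb : ‖b‖ < 1) (hx : ‖x‖ ≤ 1) : ‖M b x‖ ≤ 1 := by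
  have h1 := x28452_ne hb hx
  have h2 : 0 < ‖1 - conj b * x‖ := norm_pos_iff.mpr h1
  have h3 := M_sq hb hx
  have h4 : 0 ≤ (1 - ‖b‖ ^ 2) * (1 - ‖x‖ ^ 2) := by
    apply mul_nonneg
    · nlinarith [norm_nonneg b]
    · nlinarith [norm_nonneg x]
  rw [← h3] at h4
  have h5 : 0 ≤ 1 - ‖M b x‖ ^ 2 := nonneg_of_mul_nonneg_left h4 (by positivity)
  nlinarith [norm_nonneg (M b x)]

theorem M_lt {b x : ℂ} (hb : ‖b‖ < 1) (hx : ‖x‖ < 1) : ‖M b x‖ < 1 := by
  have h1 := x28452_ne hb hx.le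
  have h2 : 0 < ‖1 - conj b * x‖ := norm_pos_iff.mpr h1
  have h3 := M_sq hb hx.le
  have h4 : 0 < (1 - ‖b‖ ^ 2) * (1 - ‖x‖ ^ 2) := by
    apply mul_pos
    · nlinarith [norm_nonneg b]
    · nlinarith [norm_nonneg x]
  rw [← h3] at h4
  have h5 : 0 < 1 - ‖M b x‖ ^ 2 := pos_of_mul_pos_of_pos_right h4 (by positivity)
  nlinarith [norm_nonneg (M b x)]
where
  pos_of_mul_pos_of_pos_right {a b : ℝ} (h : 0 < a * b) (hb : 0 ≤ b) : 0 < a := by
    by_contra hc
    push Not at hc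
    nlinarith

theorem M_M {b x : ℂ} (hb : ‖b‖ < 1) (hx : ‖x‖ ≤ 1) : M b (M b x) = x := by
  have h1 := x28452_ne hb hx
  have h2 := x28452_ne hb (M_le hb hx)
  have h3 : M b x * (1 - conj b * x) = b - x := by
    unfold M
    rw [div_mul_cancel₀ _ h1]
  unfold M at h2 ⊢
  rw [div_eq_iff h2]
  have h4 : (b - (b - x) / (1 - conj b * x)) * (1 - conj b * x) =
      x * (1 - conj b * ((b - x) / (1 - conj b * x))) * (1 - conj b * x) := by
    rw [sub_mul, div_mul_cancel₀ _ h1, mul_assoc x, sub_mul (1 : ℂ), one_mul, mul_assoc (conj b),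
      div_mul_cancel₀ _ h1]
    ring
  exact mul_right_cancel₀ h1 h4

theorem norm_M_bfac (b u : ℂ) : ‖M b u‖ = ‖bfac b u‖ := by
  unfold bfac M
  split_ifs with h
  · rw [h]; simp
  · rw [norm_mul, norm_div ((‖b‖ : ℝ) : ℂ), Complex.norm_real, norm_norm,
      div_self (norm_ne_zero_iff.mpr h), one_mul]

theorem M_diff {b x : ℂ} (hb : ‖b‖ < 1) (hx : ‖x‖ ≤ 1) : DifferentiableAt ℂ (M b) x := by
  have h1 := x28452_ne hb hx
  unfold M
  exact DifferentiableAt.div (by fun_prop) (by fun_prop) h1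

theorem main : Pool.Agent.W744.GL.S_SP := by
  intro f hf hf1 z w hz hw
  have hb : ‖cay z‖ < 1 := mem_ball_zero_iff.mp (cay_mem hz)
  have hu : ‖cay w‖ < 1 := mem_ball_zero_iff.mp (cay_mem hw)
  set b := cay z with hbdef
  set u := cay w with hudef
  have hA1 : ‖f b‖ ≤ 1 := hf1 b (mem_ball_zero_iff.mpr hb)
  have hB1 : ‖f u‖ ≤ 1 := hf1 u (mem_ball_zero_iff.mpr hu)
  have hs0 : 0 ≤ Real.sqrt (1 - PH z w) := Real.sqrt_nonneg _
  rcases hA1.lt_or_eq with hA | hA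
  · -- Schwarz
    have hrho : Real.sqrt (1 - PH z w) = ‖M b u‖ := by
      have h := one_sub_bfac_cay hz hw
      rw [← hbdef, ← hudef, ← norm_M_bfac] at h
      rw [← h, sub_sub_cancel, Real.sqrt_sq (norm_nonneg _)]
    set F : ℂ → ℂ := fun x => M (f b) (f (M b x)) with hF
    have hF0 : F 0 = 0 := by
      rw [hF]
      simp only
      have h1 : M b 0 = b := by unfold M; simp
      rw [h1]
      unfold M
      simp
    have hmaps : MapsTo F (ball 0 1) (closedBall 0 1) := by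
      intro x hx
      rw [mem_ball_zero_iff] at hx
      rw [mem_closedBall_zero_iff]
      exact M_le hA (hf1 _ (mem_ball_zero_iff.mpr (M_lt hb hx)))
    have hdiff : DifferentiableOn ℂ F (ball 0 1) := by
      intro x hx
      rw [mem_ball_zero_iff] at hx
      have h1 : DifferentiableAt ℂ (M b) x := M_diff hb hx.le
      have h2 : M b x ∈ ball (0 : ℂ) 1 := mem_ball_zero_iff.mpr (M_lt hb hx)
      have h3 : DifferentiableAt ℂ f (M b x) := hf.1.differentiableAt (isOpen_ball.mem_nhds h2)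
      have h4 : DifferentiableAt ℂ (M (f b)) (f (M b x)) := M_diff hA (hf1 _ h2)
      exact (h4.comp x (h3.comp x h1)).differentiableWithinAt
    have hsch := Complex.norm_le_norm_of_mapsTo_ball hdiff hmaps hF0 (M_lt hb hu)
    have hFu : F (M b u) = M (f b) (f u) := by
      rw [hF]
      simp only
      rw [M_M hb hu.le]
    rw [hFu, ← hrho] at hsch
    set r := Real.sqrt (1 - PH z w) with hr
    -- from the pseudohyperbolic distance to the norms
    have h1 := M_sq hA hB1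
    have h2 : 1 - ‖f b‖ * ‖f u‖ ≤ ‖1 - conj (f b) * f u‖ := by
      have h3 : ‖(1 : ℂ)‖ - ‖conj (f b) * f u‖ ≤ ‖1 - conj (f b) * f u‖ := norm_sub_norm_le _ _
      rwa [norm_one, norm_mul, RCLike.norm_conj] at h3
    have ha0 := norm_nonneg (f b)
    have hb0 := norm_nonneg (f u)
    have hm0 := norm_nonneg (M (f b) (f u))
    set α := ‖f b‖
    set β := ‖f u‖
    have h4 : 0 < 1 - α * β := by nlinarith
    have h5 : (1 - α * β) ^ 2 ≤ ‖1 - conj (f b) * f u‖ ^ 2 := by gcongr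
    have h6 : ‖M (f b) (f u)‖ ^ 2 ≤ r ^ 2 := by gcongr
    have h7 : ‖M (f b) (f u)‖ ≤ 1 := M_le hA hB1
    have h8 : 0 ≤ 1 - ‖M (f b) (f u)‖ ^ 2 := by nlinarith
    have h9 : (1 - ‖M (f b) (f u)‖ ^ 2) * (1 - α * β) ^ 2 ≤ (1 - α ^ 2) * (1 - β ^ 2) := by
      rw [← h1]
      exact mul_le_mul_of_nonneg_left h5 h8
    have h10 : (β - α) ^ 2 ≤ (‖M (f b) (f u)‖ * (1 - α * β)) ^ 2 := by nlinarith
    have h11 : β - α ≤ ‖M (f b) (f u)‖ * (1 - α * β) :=
      le_of_abs_le (abs_le_of_sq_le_sq h10 (mul_nonneg hm0 h4.le))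
    have h12 : ‖M (f b) (f u)‖ * (1 - α * β) ≤ ‖M (f b) (f u)‖ := by
      apply mul_le_of_le_one_right hm0
      nlinarith [mul_nonneg ha0 hb0]
    linarith
  · rw [hA]
    linarith

end Pool.Agent.W376.GL.SP
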